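import Pool.Agent.Lib.helper5.LindU

namespace Pool.Agent.Results.MP_7f09f8_gt.UnifEmb

universe u v

theorem result (X : Type u) (Y : Type v) [TopologicalSpace X] [TopologicalSpace Y] [T35Space X]
    [T35Space Y] [LindelofSpace X]
    (φ : {f : Y → ℝ // Continuous f} → {g : X → ℝ // Continuous g})
    (he : Topology.IsEmbedding φ)
    (h : UniformContinuous φ ∨ ∀ f g : {f : Y → ℝ // Continuous f},
      (φ ⟨f.1 + g.1, f.2.add g.2⟩).1 = (φ f).1 + (φ g).1) :
    LindelofSpace Y :=
  H5LU.main φ (h.elim id (H5LU.unif_of_add φ he.continuous)) he.isInducing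

end Pool.Agent.Results.MP_7f09f8_gt.UnifEmb
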